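import Pool.Agent.H825R3.Tsi.Exist

/-!
# The separation constant of the unit ball of Tsirelson space is 2
-/

set_option autoImplicit false

open Pool.Agent.H825R3.Tsi

namespace Pool.Agent.Results.MP_6d986f_an.SeparationTwo

/-- `S` is `c`-separated: distinct points of `S` have distance at least `c`. -/
def IsSeparatedSet {X : Type} [NormedAddCommGroup X] (c : ℝ) (S : Set X) : Prop :=
  ∀ x ∈ S, ∀ y ∈ S, x ≠ y → c ≤ ‖x - y‖

/-- The set of all `c > 0` such that the closed unit ball of `X` contains an infinite `c`-separated
set. -/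
def sepSet (X : Type) [NormedAddCommGroup X] : Set ℝ :=
  {c | 0 < c ∧ ∃ S : Set X, S ⊆ Metric.closedBall 0 1 ∧ S.Infinite ∧ IsSeparatedSet c S}

/-- The separation constant `P(X)`. -/
noncomputable def P (X : Type) [NormedAddCommGroup X] : ℝ := sSup (sepSet X)

section

variable {T : Type} [NormedAddCommGroup T] [NormedSpace ℝ T] {e : ℕ → T}

lemma comb_single (e : ℕ → T) (a : ℕ) (c : ℝ) : comb e (Finsupp.single a c) = c • e a := by
  rw [comb, Finsupp.sum_single_index]
  exact zero_smul _ _

lemma comb_add (e : ℕ → T) (x y : ℕ →₀ ℝ) : comb e (x + y) = comb e x + comb e y := by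
  rw [comb, comb, comb, Finsupp.sum_add_index']
  · intro k; exact zero_smul _ _
  · intro k b c; exact add_smul _ _ _

lemma comb_zero (e : ℕ → T) : comb e (0 : ℕ →₀ ℝ) = 0 := by
  rw [comb, Finsupp.sum_zero_index]

lemma restr_single (E : Finset ℕ) (a : ℕ) (c : ℝ) :
    restr E (Finsupp.single a c) = if a ∈ E then Finsupp.single a c else 0 := by
  classical
  rw [restr]
  split_ifs with h
  · exact Finsupp.filter_single_of_pos _ h
  · exact Finsupp.filter_single_of_neg _ h

lemma restr_add (E : Finset ℕ) (x y : ℕ →₀ ℝ) : restr E (x + y) = restr E x + restr E y := by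
  rw [restr, Finsupp.filter_add]
  rfl

/-- a point belongs to at most one member of an admissible family -/
lemma sum_mem_le (n : ℕ) (E : Fin n → Finset ℕ) (hE : Admissible n E) (a : ℕ) (c : ℝ)
    (hc : 0 ≤ c) : ∑ i, (if a ∈ E i then c else 0) ≤ c := by
  classical
  by_cases h : ∃ i, a ∈ E i
  · obtain ⟨i, hi⟩ := h
    rw [Finset.sum_eq_single i]
    · rw [if_pos hi]
    · intro j _ hj
      rw [if_neg]
      intro hj'
      rcases lt_or_gt_of_ne hj with h1 | h1
      · exact lt_irrefl _ (hE.2.2 j i h1 a hj' a hi)
      · exact lt_irrefl _ (hE.2.2 i j h1 a hi a hj')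
    · intro h'
      exact absurd (Finset.mem_univ _) h'
  · push Not at h
    rw [Finset.sum_eq_zero fun i _ => if_neg (h i)]
    exact hc

lemma norm_single (h : IsTsirelson T e) (a : ℕ) (c : ℝ) : ‖comb e (Finsupp.single a c)‖ = |c| := by
  classical
  have hlub := h.norm_eq (Finsupp.single a c)
  set N := ‖comb e (Finsupp.single a c)‖ with hN
  have h1 : |c| ≤ N := hlub.1 (Or.inl ⟨a, by rw [Finsupp.single_eq_same]⟩)
  have h2 : N ≤ max |c| (N / 2) := by
    apply hlub.2
    rintro r (⟨k, rfl⟩ | ⟨n, E, -, hE, rfl⟩)
    · apply le_max_of_le_left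
      rw [Finsupp.single_apply]
      split_ifs
      · exact le_rfl
      · rw [abs_zero]; exact abs_nonneg c
    · apply le_max_of_le_right
      have h3 : ∀ i, ‖comb e (restr (E i) (Finsupp.single a c))‖ = if a ∈ E i then N else 0 := by
        intro i
        rw [restr_single]
        split_ifs
        · rfl
        · rw [comb_zero, norm_zero]
      simp only [h3]
      have := sum_mem_le n E hE a N (norm_nonneg _)
      linarith
  rcases le_max_iff.1 h2 with h3 | h3
  · exact le_antisymm h3 h1
  · have h4 := abs_nonneg c
    have h5 : 0 ≤ N := norm_nonneg _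
    linarith

lemma norm_pair_le (h : IsTsirelson T e) (a b : ℕ) (hab : a < b) : ‖e a + e b‖ ≤ 1 := by
  classical
  set x : ℕ →₀ ℝ := Finsupp.single a 1 + Finsupp.single b 1 with hx
  have hcx : comb e x = e a + e b := by
    rw [hx, comb_add, comb_single, comb_single, one_smul, one_smul]
  have hlub := h.norm_eq x
  rw [← hcx]
  set N := ‖comb e x‖ with hN
  have h2 : N ≤ max 1 (N / 2) := by
    apply hlub.2
    rintro r (⟨k, rfl⟩ | ⟨n, E, -, hE, rfl⟩)
    · apply le_max_of_le_left
      rw [hx, Finsupp.add_apply, Finsupp.single_apply, Finsupp.single_apply]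
      split_ifs with h3 h4
      · omega
      · norm_num
      · norm_num
      · norm_num
    · by_cases hboth : ∃ i, a ∈ E i ∧ b ∈ E i
      · obtain ⟨i₀, ha, hb⟩ := hboth
        apply le_max_of_le_right
        have h3 : ∀ i, ‖comb e (restr (E i) x)‖ = if a ∈ E i then N else 0 := by
          intro i
          by_cases hi : i = i₀
          · subst hi
            rw [if_pos ha, hx, restr_add, restr_single, restr_single, if_pos ha, if_pos hb]
          · have ha' : a ∉ E i := by
              intro h'
              rcases lt_or_gt_of_ne hi with h1 | h1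
              · exact lt_irrefl _ (hE.2.2 i i₀ h1 a h' a ha)
              · exact lt_irrefl _ (hE.2.2 i₀ i h1 a ha a h')
            have hb' : b ∉ E i := by
              intro h'
              rcases lt_or_gt_of_ne hi with h1 | h1
              · exact lt_irrefl _ (hE.2.2 i i₀ h1 b h' b hb)
              · exact lt_irrefl _ (hE.2.2 i₀ i h1 b hb b h')
            rw [if_neg ha', hx, restr_add, restr_single, restr_single, if_neg ha', if_neg hb',
              add_zero, comb_zero, norm_zero]
        simp only [h3]
        have := sum_mem_le n E hE a N (norm_nonneg _)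
        linarith
      · push Not at hboth
        apply le_max_of_le_left
        have h3 : ∀ i, ‖comb e (restr (E i) x)‖ ≤
            (if a ∈ E i then (1 : ℝ) else 0) + if b ∈ E i then (1 : ℝ) else 0 := by
          intro i
          rw [hx, restr_add, restr_single, restr_single, comb_add]
          refine (norm_add_le _ _).trans ?_
          apply add_le_add
          · split_ifs
            · rw [norm_single h, abs_one]
            · rw [comb_zero, norm_zero]
          · split_ifs
            · rw [norm_single h, abs_one]
            · rw [comb_zero, norm_zero]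
        have h4 := Finset.sum_le_sum fun i (_ : i ∈ Finset.univ) => h3 i
        rw [Finset.sum_add_distrib] at h4
        have h5 := sum_mem_le n E hE a 1 zero_le_one
        have h6 := sum_mem_le n E hE b 1 zero_le_one
        linarith
  rcases le_max_iff.1 h2 with h3 | h3
  · exact h3
  · have h5 : 0 ≤ N := norm_nonneg _
    linarith

lemma norm_four_ge (h : IsTsirelson T e) (a b c d : ℕ) (ha : 3 ≤ a) (hab : a < b) (hbc : b < c)
    (hcd : c < d) : 2 ≤ ‖(e a + e b) - (e c + e d)‖ := by
  classical
  set x : ℕ →₀ ℝ := Finsupp.single a 1 + Finsupp.single b 1 + Finsupp.single c (-1) +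
    Finsupp.single d (-1) with hx
  have hcx : comb e x = (e a + e b) - (e c + e d) := by
    rw [hx, comb_add, comb_add, comb_add, comb_single, comb_single, comb_single, comb_single,
      one_smul, one_smul, neg_one_smul, neg_one_smul]
    abel
  rw [← hcx]
  apply (h.norm_eq x).1
  right
  refine ⟨4, ![{a}, {b}, {c}, {d}], by norm_num, ⟨?_, ?_, ?_⟩, ?_⟩
  · intro i
    fin_cases i <;> simp
  · intro i k hk
    fin_cases i <;> simp at hk <;> omega
  · intro i j hij p hp q hq
    fin_cases i <;> fin_cases j <;> simp at hij hp hq <;> omega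
  · have e1 : ∀ (p : ℕ) (s : ℝ), x p = s → ‖comb e (restr {p} x)‖ = |s| := by
      intro p s hp
      have : restr {p} x = Finsupp.single p s := by
        ext q
        rw [restr, Finsupp.filter_apply, Finsupp.single_apply]
        by_cases hq : q = p
        · subst hq
          rw [if_pos (Finset.mem_singleton_self _), if_pos rfl, hp]
        · rw [if_neg (fun h' => hq (Finset.mem_singleton.1 h')), if_neg (fun h' => hq h'.symm)]
      rw [this, norm_single h]
    have xa : x a = 1 := by
      simp only [hx, Finsupp.add_apply, Finsupp.single_apply]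
      rw [if_pos trivial, if_neg (by omega), if_neg (by omega), if_neg (by omega)]
      norm_num
    have xb : x b = 1 := by
      simp only [hx, Finsupp.add_apply, Finsupp.single_apply]
      rw [if_neg (by omega), if_pos trivial, if_neg (by omega), if_neg (by omega)]
      norm_num
    have xc : x c = -1 := by
      simp only [hx, Finsupp.add_apply, Finsupp.single_apply]
      rw [if_neg (by omega), if_neg (by omega), if_pos trivial, if_neg (by omega)]
      norm_num
    have xd : x d = -1 := by
      simp only [hx, Finsupp.add_apply, Finsupp.single_apply]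
      rw [if_neg (by omega), if_neg (by omega), if_neg (by omega), if_pos trivial]
      norm_num
    rw [Fin.sum_univ_four]
    change (2 : ℝ) = 1 / 2 * (‖comb e (restr {a} x)‖ + ‖comb e (restr {b} x)‖ +
      ‖comb e (restr {c} x)‖ + ‖comb e (restr {d} x)‖)
    rw [e1 a 1 xa, e1 b 1 xb, e1 c (-1) xc, e1 d (-1) xd]
    norm_num

/-- the separated sequence -/
def pt (e : ℕ → T) (k : ℕ) : T := e (2 * k + 3) + e (2 * k + 4)

lemma pt_sep (h : IsTsirelson T e) (k l : ℕ) (hkl : k ≠ l) : 2 ≤ ‖pt e k - pt e l‖ := by
  rcases lt_or_gt_of_ne hkl with h1 | h1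
  · exact norm_four_ge h _ _ _ _ (by omega) (by omega) (by omega) (by omega)
  · rw [norm_sub_rev]
    exact norm_four_ge h _ _ _ _ (by omega) (by omega) (by omega) (by omega)

lemma two_mem (h : IsTsirelson T e) : (2 : ℝ) ∈ sepSet T := by
  refine ⟨two_pos, Set.range (pt e), ?_, ?_, ?_⟩
  · rintro x ⟨k, rfl⟩
    rw [mem_closedBall_zero_iff]
    exact norm_pair_le h _ _ (by omega)
  · apply Set.infinite_range_of_injective
    intro k l hkl
    by_contra hne
    have := pt_sep h k l hne
    rw [hkl, sub_self, norm_zero] at this
    norm_num at this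
  · rintro x ⟨k, rfl⟩ y ⟨l, rfl⟩ hxy
    exact pt_sep h k l fun h' => hxy (by rw [h'])

lemma le_two (X : Type) [NormedAddCommGroup X] (c : ℝ) (hc : c ∈ sepSet X) : c ≤ 2 := by
  obtain ⟨-, S, hS, hinf, hsep⟩ := hc
  obtain ⟨x, hx, y, hy, hxy⟩ := hinf.nontrivial
  have h1 := hsep x hx y hy hxy
  have h2 := mem_closedBall_zero_iff.1 (hS hx)
  have h3 := mem_closedBall_zero_iff.1 (hS hy)
  have h4 := norm_sub_le x y
  linarith

end

/-- Tsirelson space (in the Figiel–Johnson form) exists, and for every realisation `T` of it the
separation constant `P(T)` of its unit ball equals `2`. Moreover the supremum is attained: the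
closed unit ball of `T` contains an infinite `2`-separated set. -/
theorem result :
    (∃ (T : Type) (_ : NormedAddCommGroup T) (_ : NormedSpace ℝ T) (e : ℕ → T),
      IsTsirelson T e) ∧
    ∀ (T : Type) [NormedAddCommGroup T] [NormedSpace ℝ T] (e : ℕ → T), IsTsirelson T e →
      P T = 2 ∧ ∃ S : Set T, S ⊆ Metric.closedBall 0 1 ∧ S.Infinite ∧ IsSeparatedSet 2 S := by
  refine ⟨⟨TT, inferInstance, inferInstance, ee, isTsirelson_TT⟩, ?_⟩
  intro T _ _ e h
  refine ⟨?_, (two_mem h).2⟩
  exact (IsGreatest.csSup_eq ⟨two_mem h, fun c hc => le_two T c hc⟩)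

end Pool.Agent.Results.MP_6d986f_an.SeparationTwo
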